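import Mathlib
import Pool.Agent.Helper97.BG.Defs

/-!
Project AN (MP_8410f8_pr): definitions.

Part 1: finite product spaces `Om N = (Fin N → Fin 3)` with product weights.
Part 2: marked configurations on the sphere. A vertex is a pair (point, mark); the mark `true` enlarges
the radius of adjacency by `h`.
-/

open MeasureTheory Set
open scoped ENNReal

namespace Pool.Agent.Helper28.AN

open Pool.Agent.Helper97.BG

/-- States of `N` cells: `0` vacant, `1` occupied, `2` occupied and enlarged. -/
abbrev Om (N : ℕ) := Fin N → Fin 3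

/-- Product weight. -/
def wt {N : ℕ} (w : Fin N → Fin 3 → ℝ) (ω : Om N) : ℝ := ∏ i, w i (ω i)

/-- Expectation with respect to the product weight. -/
def Ex {N : ℕ} (w : Fin N → Fin 3 → ℝ) (f : Om N → ℝ) : ℝ := ∑ ω, wt w ω * f ω

/-- Average over coordinate `i`. -/
def av {N : ℕ} (w : Fin N → Fin 3 → ℝ) (i : Fin N) (f : Om N → ℝ) : Om N → ℝ :=
  fun ω => ∑ c, w i c * f (Function.update ω i c)

open Classical in
/-- Indicator of a proposition. -/
noncomputable def one (p : Prop) : ℝ := if p then 1 else 0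

/-- `w` is a family of probability weights bounded below by `p`. -/
def IsW {N : ℕ} (p : ℝ) (w : Fin N → Fin 3 → ℝ) : Prop :=
  (∀ i c, p ≤ w i c) ∧ ∀ i, ∑ c, w i c = 1

/-- `f` depends on the coordinate `i` at `ω`. -/
def Dep {N : ℕ} (F : Om N → Prop) (i : Fin N) (ω : Om N) : Prop :=
  ∃ c c' : Fin 3, F (Function.update ω i c) ∧ ¬ F (Function.update ω i c')

/-- The influence of the coordinate `i`. -/
noncomputable def Inf {N : ℕ} (w : Fin N → Fin 3 → ℝ) (F : Om N → Prop) (i : Fin N) : ℝ :=
  Ex w fun ω => one (Dep F i ω)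

/-- `c` is pivotal for the step from state `b` to state `c` at the coordinate `i`. -/
def Piv {N : ℕ} (F : Om N → Prop) (b c : Fin 3) (i : Fin N) (ω : Om N) : Prop :=
  F (Function.update ω i c) ∧ ¬ F (Function.update ω i b)

/-- The weights with intensities `t i`, total intensity `lam`, and probability `s` of the mark. -/
noncomputable def ws {N : ℕ} (t : Fin N → ℝ) (lam s : ℝ) : Fin N → Fin 3 → ℝ :=
  fun i => ![Real.exp (-(lam * t i)), (1 - Real.exp (-(lam * t i))) * (1 - s),
    (1 - Real.exp (-(lam * t i))) * s]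

variable {d : ℕ}

/-- Adjacency of marked points. -/
def adjM (a h : ℝ) (p q : Sph d × Bool) : Prop :=
  ‖(p.1 : V d) + q.1‖ < a + (if p.2 then h else 0) + (if q.2 then h else 0)

/-- The marked set `W` is not `k`-colourable. -/
def NC (a h : ℝ) (k : ℕ) (W : Set (Sph d × Bool)) : Prop :=
  ¬ ∃ c : Sph d × Bool → Fin k, ∀ p ∈ W, ∀ q ∈ W, adjM a h p q → c p ≠ c q

/-- The marked set of the state `ω` (cells with centres `z i`), together with the points of `U`
with mark `true`. -/
def cfg {N : ℕ} (z : Fin N → Sph d) (U : Set (Sph d)) (ω : Om N) : Set (Sph d × Bool) :=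
  {p | ∃ i, p.1 = z i ∧ ((ω i = 1 ∧ p.2 = false) ∨ (ω i = 2 ∧ p.2 = true))} ∪
    {p | p.1 ∈ U ∧ p.2 = true}

/-- The event on the product space. -/
def FF (a h : ℝ) (k : ℕ) {N : ℕ} (z : Fin N → Sph d) (U : Set (Sph d)) (ω : Om N) : Prop :=
  NC a h k (cfg z U ω)

/-- The action of a linear isometry on the sphere. -/
noncomputable def rot (R : V d ≃ₗᵢ[ℝ] V d) (x : Sph d) : Sph d :=
  ⟨R x, by rw [mem_sphere_zero_iff_norm, R.norm_map]; exact mem_sphere_zero_iff_norm.1 x.2⟩

end Pool.Agent.Helper28.AN
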