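import Mathlib
import Pool.Agent.Helper97.BG.Stmt2

/-!
Project AN (MP_8410f8_pr): the median of the threshold for `χ > k`.
-/

open Filter Topology
open scoped ENNReal

namespace Pool.Agent.Helper28.AN

open Pool.Agent.Helper97.BG

/-- The median: the infimum of the `α > 0` with `P(χ(G_d(n, α)) > k) ≥ 1/2`. -/
noncomputable def med (d k n : ℕ) : ℝ := sInf {α : ℝ | 0 < α ∧ 1 / 2 ≤ prob d n α k}

end Pool.Agent.Helper28.AN
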