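import Mathlib
import Pool.Agent.Helper28.AN.Med
import Pool.Agent.Helper28.AN.St.A1
import Pool.Agent.Helper97.BG.Final2

/-!
Project AN (MP_8410f8_pr): the sharp threshold in terms of `prob`, and the median.
-/

open Filter Topology MeasureTheory
open scoped ENNReal

namespace Pool.Agent.Helper28.AN

open Pool.Agent.Helper97.BG

theorem sin_cmp {x ε : ℝ} (hx : 0 < x) (hε : 0 < ε) (hε1 : ε ≤ 1) (hxε : x ^ 2 ≤ ε) :
    (1 + ε / 2) * (2 * Real.sin (x / 2)) ≤ 2 * Real.sin ((1 + ε) * x / 2) := by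
  have hx1 : x ≤ 1 := by nlinarith
  have h1 : Real.sin (x / 2) ≤ x / 2 := Real.sin_le (by linarith)
  have hz0 : 0 < (1 + ε) * x / 2 := by positivity
  have h2 := Real.sin_gt_sub_cube hz0
  have h3 : ((1 + ε) * x / 2) ^ 3 / 6 ≤ ε / 4 * x := by
    have e1 : ((1 + ε) * x / 2) ^ 3 / 6 = (1 + ε) ^ 3 * x ^ 2 / 48 * x := by ring
    rw [e1]
    refine mul_le_mul_of_nonneg_right ?_ hx.le
    have e2 : (1 + ε) ^ 3 ≤ 8 := by
      have : (1 + ε) ^ 3 ≤ 2 ^ 3 := pow_le_pow_left₀ (by linarith) (by linarith) 3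
      linarith
    nlinarith [sq_nonneg x]
  nlinarith

theorem sin_half_ge {x : ℝ} (hx : 0 < x) (hx1 : x ≤ 1) : x / 2 ≤ 2 * Real.sin (x / 2) := by
  have h2 := Real.sin_gt_sub_cube (x := x / 2) (by linarith)
  have h3 : (x / 2) ^ 3 / 6 ≤ x / 4 := by
    have h4 : x ^ 2 ≤ 1 := by nlinarith
    have h5 : (x / 2) ^ 3 / 6 = x ^ 2 / 48 * x := by ring
    rw [h5]
    nlinarith
  linarith

/-- Part 1. -/
theorem part1 (d : ℕ) (hd : 1 ≤ d) {k : ℕ} {c C ε : ℝ} (hk : 2 ≤ k) (hc : 0 < c) (hcC : c ≤ C)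
    (hε : 0 < ε) : ∃ η : ℝ, 0 < η ∧ ∀ δ : ℝ, 0 < δ →
      ∃ n₀ : ℕ, ∀ (n m : ℕ) (α : ℝ), n₀ ≤ n → (m : ℝ) ≤ (1 + η) * n →
        c * (n : ℝ) ^ (-(1 : ℝ) / d) ≤ α → α ≤ C * (n : ℝ) ^ (-(1 : ℝ) / d) →
        ENNReal.ofReal δ ≤ prob d m α k → ENNReal.ofReal (1 - δ) ≤ prob d n ((1 + ε) * α) k := by
  have hC : 0 < C := hc.trans_le hcC
  set e : ℝ := min ε 1 with he
  have he0 : 0 < e := lt_min hε one_pos
  have he1 : e ≤ 1 := min_le_right _ _
  have heε : e ≤ ε := min_le_left _ _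
  obtain ⟨η, hη, hmain⟩ := main_tup d hd hk (c := (c / 2) ^ d) (C := C ^ d) (ε := e / 2)
    (by positivity) (pow_le_pow_left₀ (by positivity) (by linarith) d) (by positivity)
    (by linarith)
  refine ⟨η, hη, fun δ hδ => ?_⟩
  obtain ⟨n₁, hn₁⟩ := hmain δ hδ
  have ht := f2_tendsto_rpow hd C
  obtain ⟨n₂, hn₂⟩ := Filter.eventually_atTop.1 (ht.eventually_lt_const he0)
  refine ⟨max (max n₁ n₂) 1, fun n m α hn hm hα1 hα2 hp => ?_⟩
  have hn1 : n₁ ≤ n := (le_max_left _ _).trans ((le_max_left _ _).trans hn)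
  have hn2 : n₂ ≤ n := (le_max_right _ _).trans ((le_max_left _ _).trans hn)
  have hn3 : 1 ≤ n := (le_max_right _ _).trans hn
  have hn0 : (0 : ℝ) < n := by exact_mod_cast hn3
  have hq : 0 < (n : ℝ) ^ (-(1 : ℝ) / d) := Real.rpow_pos_of_pos hn0 _
  have hα0 : 0 < α := lt_of_lt_of_le (by positivity) hα1
  have hαe : α < e := lt_of_le_of_lt hα2 (hn₂ n hn2)
  have hα1' : α ≤ 1 := by linarith
  have hαsq : α ^ 2 ≤ e := by nlinarith
  have hpi := Real.pi_gt_three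
  set a₀ : ℝ := 2 * Real.sin (α / 2) with ha₀
  have ha1 : a₀ ≤ α := by
    have : Real.sin (α / 2) ≤ α / 2 := Real.sin_le (by linarith)
    rw [ha₀]
    linarith
  have ha2 : α / 2 ≤ a₀ := sin_half_ge hα0 hα1'
  have ha0 : 0 < a₀ := by linarith
  have hqd : ((n : ℝ) ^ (-(1 : ℝ) / d)) ^ d = (n : ℝ)⁻¹ := f2_rpow_inv hd hn0
  have hlow : (c / 2) ^ d ≤ n * a₀ ^ d := by
    have h1 : (c / 2 * (n : ℝ) ^ (-(1 : ℝ) / d)) ^ d ≤ a₀ ^ d :=
      pow_le_pow_left₀ (by positivity) (by linarith) d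
    rw [mul_pow, hqd] at h1
    calc (c / 2) ^ d = n * ((c / 2) ^ d * (n : ℝ)⁻¹) := by field_simp
      _ ≤ n * a₀ ^ d := by gcongr
  have hupp : n * a₀ ^ d ≤ C ^ d := by
    have h1 : a₀ ^ d ≤ (C * (n : ℝ) ^ (-(1 : ℝ) / d)) ^ d :=
      pow_le_pow_left₀ ha0.le (ha1.trans hα2) d
    rw [mul_pow C, hqd] at h1
    calc n * a₀ ^ d ≤ n * (C ^ d * (n : ℝ)⁻¹) := by gcongr
      _ = C ^ d := by field_simp
  rw [prob_eq d m (by omega) hα0 (by linarith)] at hp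
  have h1 := hn₁ n m hn1 hm a₀ ha0 hlow hupp hp
  have h2 : prob d n ((1 + e) * α) k =
      tup (sig d) n (fun A => ind (¬ Col (2 * Real.sin ((1 + e) * α / 2)) k A)) :=
    prob_eq d n (by omega) (by positivity) (by nlinarith)
  calc ENNReal.ofReal (1 - δ) ≤ _ := h1
    _ ≤ prob d n ((1 + e) * α) k := by
        rw [h2]
        exact tup_mono_a (sin_cmp hα0 he0 he1 hαsq)
    _ ≤ prob d n ((1 + ε) * α) k := prob_mono_alpha d n k (by gcongr)

/-! ### the median -/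

theorem med_set_nonempty (d : ℕ) {k n : ℕ} (hkn : k < n) :
    {α : ℝ | 0 < α ∧ 1 / 2 ≤ prob d n α k}.Nonempty := by
  refine ⟨Real.pi + 1, by have := Real.pi_pos; linarith, ?_⟩
  have h : {X : Fin n → Sph d | (k : ℕ∞) < (borsuk X (Real.pi + 1)).chromaticNumber} =
      Set.univ := by
    refine Set.eq_univ_of_forall fun X => ?_
    have e : borsuk X (Real.pi + 1) = ⊤ := by
      ext i j
      simp only [borsuk, SimpleGraph.top_adj]
      constructor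
      · exact fun h => h.1
      · intro hij
        refine ⟨hij, ?_⟩
        have := InnerProductGeometry.angle_nonneg (X i : V d) (X j)
        linarith
    simp only [Set.mem_ofPred_eq]
    rw [e, SimpleGraph.chromaticNumber_top, Fintype.card_fin]
    exact_mod_cast hkn
  unfold prob
  rw [h, measure_univ]
  simp

theorem med_nonneg (d k n : ℕ) : 0 ≤ med d k n :=
  Real.sInf_nonneg fun _ h => h.1.le

theorem med_le {d k n : ℕ} {α : ℝ} (h0 : 0 < α) (h : 1 / 2 ≤ prob d n α k) : med d k n ≤ α :=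
  csInf_le ⟨0, fun _ h => h.1.le⟩ ⟨h0, h⟩

theorem half_le_of_med_lt {d k n : ℕ} {α : ℝ} (hne : k < n ∨ 0 < med d k n)
    (h : med d k n < α) : 1 / 2 ≤ prob d n α k := by
  have hne' : {α : ℝ | 0 < α ∧ 1 / 2 ≤ prob d n α k}.Nonempty := by
    rcases hne with h1 | h1
    · exact med_set_nonempty d h1
    · by_contra h2
      rw [Set.not_nonempty_iff_eq_empty] at h2
      have : med d k n = 0 := by
        unfold med
        rw [h2, Real.sInf_empty]
      linarith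
  obtain ⟨β, ⟨hβ0, hβ⟩, hlt⟩ := exists_lt_of_csInf_lt hne' h
  exact hβ.trans (prob_mono_alpha d n k hlt.le)

theorem le_med {d k n : ℕ} {α : ℝ} (hkn : k < n) (h : prob d n α k < 1 / 2) : α ≤ med d k n := by
  by_contra hlt
  push Not at hlt
  exact absurd (half_le_of_med_lt (Or.inl hkn) hlt) (not_le.2 h)

theorem med_mono_k {d k l n : ℕ} (hkl : k ≤ l) (hln : l < n) : med d k n ≤ med d l n := by
  refine le_csInf (med_set_nonempty d hln) ?_
  rintro α ⟨h0, h⟩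
  refine med_le h0 (h.trans ?_)
  unfold prob
  refine measure_mono fun X hX => ?_
  simp only [Set.mem_ofPred_eq] at hX ⊢
  exact lt_of_le_of_lt (by exact_mod_cast hkl) hX

theorem half_eq : ENNReal.ofReal (1 / 2) = 1 / 2 := by
  rw [ENNReal.ofReal_div_of_pos (by norm_num)]
  simp

/-- Comparison of medians. -/
theorem med_comp (d : ℕ) (hd : 1 ≤ d) {k : ℕ} (hk : 2 ≤ k) {c C ε : ℝ} (hc : 0 < c) (hcC : c ≤ C)
    (hε : 0 < ε) (hε1 : ε ≤ 1) : ∃ η : ℝ, 0 < η ∧ ∃ n₀ : ℕ, ∀ n m : ℕ, n₀ ≤ n →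
      (m : ℝ) ≤ (1 + η) * n → c * (n : ℝ) ^ (-(1 : ℝ) / d) ≤ med d k m →
      med d k m ≤ C * (n : ℝ) ^ (-(1 : ℝ) / d) → med d k n ≤ (1 + ε) * med d k m := by
  obtain ⟨η, hη, h⟩ := part1 d hd hk hc (by linarith : c ≤ 2 * C) (ε := ε / 3) (by positivity)
  obtain ⟨n₀, hn₀⟩ := h (1 / 2) (by norm_num)
  refine ⟨η, hη, max n₀ 1, fun n m hn hm h1 h2 => ?_⟩
  have hn3 : 1 ≤ n := (le_max_right _ _).trans hn
  have hn0 : (0 : ℝ) < n := by exact_mod_cast hn3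
  have hq : 0 < (n : ℝ) ^ (-(1 : ℝ) / d) := Real.rpow_pos_of_pos hn0 _
  have hm0 : 0 < med d k m := lt_of_lt_of_le (by positivity) h1
  have h3 : ENNReal.ofReal (1 / 2) ≤ prob d m ((1 + ε / 3) * med d k m) k := by
    rw [half_eq]
    exact half_le_of_med_lt (Or.inr hm0) (by nlinarith)
  have h4 := hn₀ n m ((1 + ε / 3) * med d k m) ((le_max_left _ _).trans hn) hm
    (h1.trans (by nlinarith)) (by nlinarith) h3
  have e1 : (1 : ℝ) - 1 / 2 = 1 / 2 := by norm_num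
  rw [e1, half_eq] at h4
  refine (med_le (by positivity) h4).trans ?_
  nlinarith [mul_pos hε hm0]

end Pool.Agent.Helper28.AN
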