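import Mathlib
import Pool.Agent.Helper28.AN.Fin1

/-!
Project AN (MP_8410f8_pr): sharpness at the median, slow variation, and the convergence criterion.
-/

open Filter Topology MeasureTheory
open scoped ENNReal

namespace Pool.Agent.Helper28.AN

open Pool.Agent.Helper97.BG

theorem rq {d n : ℕ} (hn : 1 ≤ n) :
    (n : ℝ) ^ ((1 : ℝ) / d) * (n : ℝ) ^ (-(1 : ℝ) / d) = 1 := by
  have hn0 : (0 : ℝ) < n := by exact_mod_cast hn
  rw [← Real.rpow_add hn0, neg_div, add_neg_cancel, Real.rpow_zero]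

theorem le_of_r {d n : ℕ} (hn : 1 ≤ n) {c x : ℝ} (h : c ≤ (n : ℝ) ^ ((1 : ℝ) / d) * x) :
    c * (n : ℝ) ^ (-(1 : ℝ) / d) ≤ x := by
  have hn0 : (0 : ℝ) < n := by exact_mod_cast hn
  have hq : 0 < (n : ℝ) ^ (-(1 : ℝ) / d) := Real.rpow_pos_of_pos hn0 _
  have h1 := mul_le_mul_of_nonneg_right h hq.le
  have h2 := rq (d := d) hn
  calc c * (n : ℝ) ^ (-(1 : ℝ) / d) ≤ (n : ℝ) ^ ((1 : ℝ) / d) * x * (n : ℝ) ^ (-(1 : ℝ) / d) := h1
    _ = (n : ℝ) ^ ((1 : ℝ) / d) * (n : ℝ) ^ (-(1 : ℝ) / d) * x := by ring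
    _ = x := by rw [h2, one_mul]

theorem ge_of_r {d n : ℕ} (hn : 1 ≤ n) {c x : ℝ} (h : (n : ℝ) ^ ((1 : ℝ) / d) * x ≤ c) :
    x ≤ c * (n : ℝ) ^ (-(1 : ℝ) / d) := by
  have hn0 : (0 : ℝ) < n := by exact_mod_cast hn
  have hq : 0 < (n : ℝ) ^ (-(1 : ℝ) / d) := Real.rpow_pos_of_pos hn0 _
  have h1 := mul_le_mul_of_nonneg_right h hq.le
  have h2 := rq (d := d) hn
  calc x = (n : ℝ) ^ ((1 : ℝ) / d) * (n : ℝ) ^ (-(1 : ℝ) / d) * x := by rw [h2, one_mul]
    _ = (n : ℝ) ^ ((1 : ℝ) / d) * x * (n : ℝ) ^ (-(1 : ℝ) / d) := by ring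
    _ ≤ c * (n : ℝ) ^ (-(1 : ℝ) / d) := h1

/-- Convergence to `1` from quantitative bounds. -/
theorem tendsto_one {f : ℕ → ℝ≥0∞} (h1 : ∀ n, f n ≤ 1)
    (h : ∀ δ : ℝ, 0 < δ → δ ≤ 1 / 2 → ∀ᶠ n in atTop, ENNReal.ofReal (1 - δ) ≤ f n) :
    Tendsto f atTop (𝓝 1) := by
  rw [ENNReal.tendsto_nhds ENNReal.one_ne_top]
  intro ε hε
  have hpos : 0 < (min ε (1 / 2)).toReal := by
    apply ENNReal.toReal_pos
    · exact (lt_min hε (by norm_num)).ne'
    · exact ne_top_of_le_ne_top (by simp) (min_le_right ε (1 / 2))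
  have hle : (min ε (1 / 2)).toReal ≤ 1 / 2 := by
    have := ENNReal.toReal_mono (by simp) (min_le_right ε (1 / 2))
    simpa using this
  have hne : min ε (1 / 2) ≠ ∞ := ne_top_of_le_ne_top (by simp) (min_le_right ε (1 / 2))
  filter_upwards [h _ hpos hle] with n hn
  refine ⟨?_, (h1 n).trans le_self_add⟩
  refine le_trans ?_ hn
  rw [ENNReal.ofReal_sub _ hpos.le, ENNReal.ofReal_one, ENNReal.ofReal_toReal hne]
  exact tsub_le_tsub_left (min_le_left _ _) 1

/-- Convergence to `0` from quantitative bounds. -/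
theorem tendsto_zero {f : ℕ → ℝ≥0∞}
    (h : ∀ δ : ℝ, 0 < δ → δ < 1 / 2 → ∀ᶠ n in atTop, f n < ENNReal.ofReal δ) :
    Tendsto f atTop (𝓝 0) := by
  rw [ENNReal.tendsto_nhds_zero]
  intro ε hε
  have hpos : 0 < (min ε (1 / 4)).toReal := by
    apply ENNReal.toReal_pos
    · exact (lt_min hε (by norm_num)).ne'
    · exact ne_top_of_le_ne_top (by simp) (min_le_right ε (1 / 4))
  have hle : (min ε (1 / 4)).toReal ≤ 1 / 4 := by
    have := ENNReal.toReal_mono (by simp) (min_le_right ε (1 / 4))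
    simpa using this
  have hne : min ε (1 / 4) ≠ ∞ := ne_top_of_le_ne_top (by simp) (min_le_right ε (1 / 4))
  filter_upwards [h _ hpos (by linarith)] with n hn
  rw [ENNReal.ofReal_toReal hne] at hn
  exact hn.le.trans (min_le_left _ _)

theorem half_lt {δ : ℝ} (h : δ < 1 / 2) : 1 / 2 < ENNReal.ofReal (1 - δ) := by
  rw [← half_eq]
  exact (ENNReal.ofReal_lt_ofReal_iff (by linarith)).2 (by linarith)

/-- Sharpness at the median. -/
theorem sharp_med (d : ℕ) (hd : 1 ≤ d) {k : ℕ} (hk : 2 ≤ k) {c C : ℝ} (hc : 0 < c)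
    (hb : ∀ᶠ n : ℕ in atTop, c ≤ (n : ℝ) ^ ((1 : ℝ) / d) * med d k n ∧
      (n : ℝ) ^ ((1 : ℝ) / d) * med d k n ≤ C) {ε : ℝ} (hε : 0 < ε) (hε1 : ε < 1) :
    Tendsto (fun n => prob d n ((1 - ε) * med d k n) k) atTop (𝓝 0) ∧
      Tendsto (fun n => prob d n ((1 + ε) * med d k n) k) atTop (𝓝 1) := by
  obtain ⟨n₁, hn₁⟩ := eventually_atTop.1 hb
  have hcC : c ≤ C := by
    have h := hn₁ n₁ le_rfl
    exact h.1.trans h.2
  constructor
  · apply tendsto_zero
    intro δ hδ hδ2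
    obtain ⟨η, hη, h⟩ := part1 d hd hk (c := (1 - ε) * c) (C := C) (ε := ε)
      (mul_pos (by linarith) hc) (by nlinarith) hε
    obtain ⟨n₀, hn₀⟩ := h δ hδ
    filter_upwards [eventually_ge_atTop n₀, eventually_ge_atTop n₁, eventually_ge_atTop 1]
      with n h0 h1 h2
    obtain ⟨a1, a2⟩ := hn₁ n h1
    have b1 := le_of_r (d := d) h2 a1
    have b2 := ge_of_r (d := d) h2 a2
    have hn0 : (0 : ℝ) < n := by exact_mod_cast h2
    have hq : 0 < (n : ℝ) ^ (-(1 : ℝ) / d) := Real.rpow_pos_of_pos hn0 _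
    have hm0 : 0 < med d k n := lt_of_lt_of_le (by positivity) b1
    by_contra hcon
    push Not at hcon
    have h3 := hn₀ n n ((1 - ε) * med d k n) h0 (by nlinarith) (by
      rw [mul_assoc]
      exact mul_le_mul_of_nonneg_left b1 (by linarith)) (by nlinarith) hcon
    have h4 : 1 / 2 ≤ prob d n ((1 + ε) * ((1 - ε) * med d k n)) k := (half_lt hδ2).le.trans h3
    have h5 : 0 < (1 + ε) * ((1 - ε) * med d k n) :=
      mul_pos (by linarith) (mul_pos (by linarith) hm0)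
    have h6 := med_le h5 h4
    nlinarith [mul_pos (mul_pos hε hε) hm0]
  · apply tendsto_one (fun n => prob_le_one d n _ k)
    intro δ hδ hδ2
    obtain ⟨η, hη, h⟩ := part1 d hd hk (c := c) (C := 2 * C) (ε := ε / 3) hc (by linarith)
      (by positivity)
    obtain ⟨n₀, hn₀⟩ := h δ hδ
    filter_upwards [eventually_ge_atTop n₀, eventually_ge_atTop n₁, eventually_ge_atTop 1]
      with n h0 h1 h2
    obtain ⟨a1, a2⟩ := hn₁ n h1
    have b1 := le_of_r (d := d) h2 a1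
    have b2 := ge_of_r (d := d) h2 a2
    have hn0 : (0 : ℝ) < n := by exact_mod_cast h2
    have hq : 0 < (n : ℝ) ^ (-(1 : ℝ) / d) := Real.rpow_pos_of_pos hn0 _
    have hm0 : 0 < med d k n := lt_of_lt_of_le (by positivity) b1
    have h3 : ENNReal.ofReal δ ≤ prob d n ((1 + ε / 3) * med d k n) k := by
      have h4 := half_le_of_med_lt (d := d) (k := k) (n := n)
        (α := (1 + ε / 3) * med d k n) (Or.inr hm0) (by nlinarith)
      refine le_trans ?_ h4
      rw [← half_eq]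
      exact ENNReal.ofReal_le_ofReal hδ2
    have h5 := hn₀ n n ((1 + ε / 3) * med d k n) h0 (by nlinarith) (b1.trans (by nlinarith))
      (by nlinarith) h3
    refine h5.trans (prob_mono_alpha d n k ?_)
    nlinarith [mul_pos hε hm0]

/-- Slow variation of the median. -/
theorem slow_med (d : ℕ) (hd : 1 ≤ d) {k : ℕ} (hk : 2 ≤ k) {c C : ℝ} (hc : 0 < c)
    (hb : ∀ᶠ n : ℕ in atTop, c ≤ (n : ℝ) ^ ((1 : ℝ) / d) * med d k n ∧
      (n : ℝ) ^ ((1 : ℝ) / d) * med d k n ≤ C) (m : ℕ → ℕ)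
    (hm : Tendsto (fun n => (m n : ℝ) / n) atTop (𝓝 1)) :
    Tendsto (fun n => med d k (m n) / med d k n) atTop (𝓝 1) := by
  obtain ⟨n₁, hn₁⟩ := eventually_atTop.1 hb
  have hcC : c ≤ C := by
    have h := hn₁ n₁ le_rfl
    exact h.1.trans h.2
  have hC : 0 < C := hc.trans_le hcC
  have hmtop : Tendsto m atTop atTop := by
    have h1 : Tendsto (fun n : ℕ => (m n : ℝ) / n * n) atTop atTop :=
      hm.pos_mul_atTop one_pos tendsto_natCast_atTop_atTop
    have h2 : Tendsto (fun n : ℕ => (m n : ℝ)) atTop atTop := by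
      refine h1.congr' ?_
      filter_upwards [eventually_ge_atTop 1] with n hn
      have : (n : ℝ) ≠ 0 := by positivity
      field_simp
    exact tendsto_natCast_atTop_iff.1 h2
  -- `n` against `m n`
  rw [Metric.tendsto_atTop]
  have key : ∀ e : ℝ, 0 < e → e ≤ 1 → ∀ᶠ n in atTop,
      med d k n ≤ (1 + e) * med d k (m n) ∧ med d k (m n) ≤ (1 + e) * med d k n ∧
        0 < med d k n := by
    intro e he he1
    obtain ⟨η, hη, n₀, hn₀⟩ := med_comp d hd hk (c := c / 2) (C := 2 * C) (ε := e)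
      (by positivity) (by linarith) he he1
    have hlo : ∀ᶠ n in atTop, 1 - min (η / 2) (1 / 2) < (m n : ℝ) / n :=
      hm.eventually_const_lt (by
        have : 0 < min (η / 2) (1 / 2) := lt_min (by positivity) (by norm_num)
        linarith)
    have hhi : ∀ᶠ n in atTop, (m n : ℝ) / n < 1 + min (η / 2) (1 / 2) :=
      hm.eventually_lt_const (by
        have : 0 < min (η / 2) (1 / 2) := lt_min (by positivity) (by norm_num)
        linarith)
    filter_upwards [hlo, hhi, eventually_ge_atTop n₀, eventually_ge_atTop n₁,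
      eventually_ge_atTop 1, hmtop.eventually_ge_atTop n₀, hmtop.eventually_ge_atTop n₁,
      hmtop.eventually_ge_atTop 1] with n h1 h2 h3 h4 h5 h6 h7 h8
    have hn0 : (0 : ℝ) < n := by exact_mod_cast h5
    have hm0 : (0 : ℝ) < m n := by exact_mod_cast h8
    have e1 : min (η / 2) (1 / 2) ≤ η / 2 := min_le_left _ _
    have e2 : min (η / 2) (1 / 2) ≤ 1 / 2 := min_le_right _ _
    have e0 : 0 < min (η / 2) (1 / 2) := lt_min (by positivity) (by norm_num)
    rw [lt_div_iff₀ hn0] at h1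
    rw [div_lt_iff₀ hn0] at h2
    have hmn : (m n : ℝ) ≤ 2 * n := by nlinarith
    have hnm : (n : ℝ) ≤ 2 * m n := by nlinarith
    have hmn' : (m n : ℝ) ≤ (1 + η) * n := by nlinarith
    have hnm' : (n : ℝ) ≤ (1 + η) * m n := by
      -- `(1 - s) n < m` with `s ≤ η / 2`, `s ≤ 1 / 2`
      set s := min (η / 2) (1 / 2) with hs
      have h9 : (1 + 2 * s) * ((1 - s) * n) ≤ (1 + 2 * s) * m n :=
        mul_le_mul_of_nonneg_left h1.le (by linarith)
      have h10 : 1 ≤ (1 + 2 * s) * (1 - s) := by nlinarith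
      have h11 : (n : ℝ) ≤ (1 + 2 * s) * ((1 - s) * n) := by
        have := mul_le_mul_of_nonneg_right h10 hn0.le
        linarith
      have h12 : (1 + 2 * s) * (m n : ℝ) ≤ (1 + η) * m n := by
        apply mul_le_mul_of_nonneg_right _ hm0.le
        linarith
      linarith
    -- comparison of the powers
    have hpow : ∀ x y : ℝ, 0 < x → 0 < y → x ≤ 2 * y →
        y ^ (-(1 : ℝ) / d) ≤ 2 * x ^ (-(1 : ℝ) / d) := by
      intro x y hx hy hxy
      have h9 := f2_rpow_le (d := d) hx hy (ρ := 2) (by norm_num) hxy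
      have h10 : (2 : ℝ) ^ ((1 : ℝ) / d) ≤ 2 := by
        calc (2 : ℝ) ^ ((1 : ℝ) / d) ≤ 2 ^ (1 : ℝ) := by
              apply Real.rpow_le_rpow_of_exponent_le (by norm_num)
              rw [div_le_one (by positivity)]
              exact_mod_cast hd
          _ = 2 := Real.rpow_one 2
      have h11 : 0 < (2 : ℝ) ^ ((1 : ℝ) / d) := by positivity
      have h12 : 0 < y ^ (-(1 : ℝ) / d) := Real.rpow_pos_of_pos hy _
      have h13 : (2 : ℝ)⁻¹ ≤ ((2 : ℝ) ^ ((1 : ℝ) / d))⁻¹ := inv_anti₀ h11 h10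
      have h14 : (2 : ℝ)⁻¹ * y ^ (-(1 : ℝ) / d) ≤ x ^ (-(1 : ℝ) / d) :=
        (mul_le_mul_of_nonneg_right h13 h12.le).trans h9
      linarith
    have p1 := hpow (m n) n hm0 hn0 hmn
    have p2 := hpow n (m n) hn0 hm0 hnm
    obtain ⟨a1, a2⟩ := hn₁ n h4
    obtain ⟨a3, a4⟩ := hn₁ (m n) h7
    have b1 := le_of_r (d := d) h5 a1
    have b2 := ge_of_r (d := d) h5 a2
    have b3 := le_of_r (d := d) h8 a3
    have b4 := ge_of_r (d := d) h8 a4
    have hqn : 0 < (n : ℝ) ^ (-(1 : ℝ) / d) := Real.rpow_pos_of_pos hn0 _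
    have hqm : 0 < (m n : ℝ) ^ (-(1 : ℝ) / d) := Real.rpow_pos_of_pos hm0 _
    refine ⟨hn₀ n (m n) h3 hmn' (le_trans ?_ b3) (b4.trans ?_),
      hn₀ (m n) n h6 hnm' (le_trans ?_ b1) (b2.trans ?_), lt_of_lt_of_le (by positivity) b1⟩
    · nlinarith
    · nlinarith
    · nlinarith
    · nlinarith
  intro ε hε
  obtain ⟨N, hN⟩ := eventually_atTop.1 (key (min (ε / 2) 1) (lt_min (by positivity) one_pos)
    (min_le_right _ _))
  refine ⟨N, fun n hn => ?_⟩
  obtain ⟨h1, h2, h3⟩ := hN n hn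
  set e := min (ε / 2) 1 with he
  have he0 : 0 < e := lt_min (by positivity) one_pos
  have he1 : e ≤ ε / 2 := min_le_left _ _
  have h4 : med d k (m n) / med d k n ≤ 1 + e := by
    rw [div_le_iff₀ h3]
    exact h2
  have h5 : 1 - e ≤ med d k (m n) / med d k n := by
    rw [le_div_iff₀ h3]
    have h6 : 0 ≤ med d k (m n) := med_nonneg d k (m n)
    -- `(1 - e) (1 + e) ≤ 1`
    by_cases h7 : 1 - e ≤ 0
    · nlinarith
    · push Not at h7
      have h8 := mul_le_mul_of_nonneg_left h1 h7.le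
      nlinarith [mul_nonneg (mul_nonneg he0.le he0.le) h6]
  rw [Real.dist_eq, abs_lt]
  constructor <;> linarith

end Pool.Agent.Helper28.AN
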