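import Mathlib
import Pool.Agent.Helper28.AN.Fin2

/-!
Project AN (MP_8410f8_pr): the convergence criterion.
-/

open Filter Topology MeasureTheory
open scoped ENNReal

namespace Pool.Agent.Helper28.AN

open Pool.Agent.Helper97.BG

theorem r_pos {d n : ℕ} (hn : 1 ≤ n) : 0 < (n : ℝ) ^ ((1 : ℝ) / d) :=
  Real.rpow_pos_of_pos (by exact_mod_cast hn) _

theorem q_pos {d n : ℕ} (hn : 1 ≤ n) : 0 < (n : ℝ) ^ (-(1 : ℝ) / d) :=
  Real.rpow_pos_of_pos (by exact_mod_cast hn) _

theorem r_le_of {d n : ℕ} (hn : 1 ≤ n) {c x : ℝ} (h : x ≤ c * (n : ℝ) ^ (-(1 : ℝ) / d)) :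
    (n : ℝ) ^ ((1 : ℝ) / d) * x ≤ c := by
  have h1 := mul_le_mul_of_nonneg_left h (r_pos (d := d) hn).le
  calc (n : ℝ) ^ ((1 : ℝ) / d) * x ≤
        (n : ℝ) ^ ((1 : ℝ) / d) * (c * (n : ℝ) ^ (-(1 : ℝ) / d)) := h1
    _ = (n : ℝ) ^ ((1 : ℝ) / d) * (n : ℝ) ^ (-(1 : ℝ) / d) * c := by ring
    _ = c := by rw [rq hn, one_mul]

theorem le_r_of {d n : ℕ} (hn : 1 ≤ n) {c x : ℝ} (h : c * (n : ℝ) ^ (-(1 : ℝ) / d) ≤ x) :
    c ≤ (n : ℝ) ^ ((1 : ℝ) / d) * x := by
  have h1 := mul_le_mul_of_nonneg_left h (r_pos (d := d) hn).le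
  calc c = (n : ℝ) ^ ((1 : ℝ) / d) * (n : ℝ) ^ (-(1 : ℝ) / d) * c := by rw [rq hn, one_mul]
    _ = (n : ℝ) ^ ((1 : ℝ) / d) * (c * (n : ℝ) ^ (-(1 : ℝ) / d)) := by ring
    _ ≤ _ := h1

/-- The threshold constants are the limits of the medians. -/
theorem conv_iff (d : ℕ) (hd : 1 ≤ d) {k : ℕ} (hk : 2 ≤ k) {c : ℝ} (hc : 0 < c) :
    (LowerAt d k c ∧ UpperAt d k c) ↔
      Tendsto (fun n : ℕ => (n : ℝ) ^ ((1 : ℝ) / d) * med d k n) atTop (𝓝 c) := by
  constructor
  · rintro ⟨hL, hU⟩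
    rw [Metric.tendsto_atTop]
    intro e he
    set ε : ℝ := min (e / (2 * c)) (1 / 2) with hε
    have hε0 : 0 < ε := lt_min (by positivity) (by norm_num)
    have hε1 : ε ≤ 1 / 2 := min_le_right _ _
    have hεe : ε * c ≤ e / 2 := by
      have h1 : ε ≤ e / (2 * c) := min_le_left _ _
      calc ε * c ≤ e / (2 * c) * c := mul_le_mul_of_nonneg_right h1 hc.le
        _ = e / 2 := by field_simp
    have h1 := hL (ε / 2) (by positivity) (fun n => (1 - ε) * c * (n : ℝ) ^ (-(1 : ℝ) / d)) (by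
      intro n hn
      have hq := q_pos (d := d) hn
      refine ⟨mul_pos (mul_pos (by linarith) hc) hq, ?_⟩
      apply mul_lt_mul_of_pos_right _ hq
      apply mul_lt_mul_of_pos_right _ hc
      linarith)
    have h2 := hU (ε / 2) (by positivity) (fun n => (1 + ε) * c * (n : ℝ) ^ (-(1 : ℝ) / d)) (by
      intro n hn
      have hq := q_pos (d := d) hn
      apply mul_lt_mul_of_pos_right _ hq
      apply mul_lt_mul_of_pos_right _ hc
      linarith)
    have h3 := h1.eventually_lt_const (show (0 : ℝ≥0∞) < 1 / 2 by simp)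
    have h4 := h2.eventually_const_lt (show (1 / 2 : ℝ≥0∞) < 1 from ENNReal.half_lt_self
      one_ne_zero ENNReal.one_ne_top)
    obtain ⟨N, hN⟩ := eventually_atTop.1 ((h3.and h4).and
      ((eventually_ge_atTop 1).and (eventually_gt_atTop k)))
    refine ⟨N, fun n hn => ?_⟩
    obtain ⟨⟨a1, a2⟩, a3, a4⟩ := hN n hn
    have hq := q_pos (d := d) a3
    have b1 := le_med a4 a1
    have b2 : med d k n ≤ (1 + ε) * c * (n : ℝ) ^ (-(1 : ℝ) / d) :=
      med_le (by positivity) a2.le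
    have c1 := le_r_of (d := d) a3 b1
    have c2 := r_le_of (d := d) a3 b2
    rw [Real.dist_eq, abs_lt]
    constructor <;> nlinarith
  · intro hT
    have hb : ∀ e : ℝ, 0 < e → ∀ᶠ n : ℕ in atTop,
        (1 - e) * c ≤ (n : ℝ) ^ ((1 : ℝ) / d) * med d k n ∧
          (n : ℝ) ^ ((1 : ℝ) / d) * med d k n ≤ (1 + e) * c := by
      intro e he
      have h1 := hT.eventually_const_lt (show (1 - e) * c < c by nlinarith)
      have h2 := hT.eventually_lt_const (show c < (1 + e) * c by nlinarith)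
      filter_upwards [h1, h2] with n a b
      exact ⟨a.le, b.le⟩
    constructor
    · intro ε hε α hα
      have hε1 : ε < 1 := by
        by_contra hcon
        push Not at hcon
        obtain ⟨h1, h2⟩ := hα 1 le_rfl
        have h3 : (1 - ε) * c * ((1 : ℕ) : ℝ) ^ (-(1 : ℝ) / d) ≤ 0 := by
          have hq := q_pos (d := d) (le_refl 1)
          exact mul_nonpos_of_nonpos_of_nonneg
            (mul_nonpos_of_nonpos_of_nonneg (by linarith) hc.le) hq.le
        linarith
      obtain ⟨h1, -⟩ := sharp_med d hd hk (c := (1 - 1 / 2) * c) (C := (1 + 1 / 2) * c)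
        (by positivity) (hb (1 / 2) (by norm_num)) (ε := ε / 2) (by positivity) (by linarith)
      refine tendsto_of_tendsto_of_tendsto_of_le_of_le' tendsto_const_nhds h1
        (Eventually.of_forall fun _ => zero_le) ?_
      filter_upwards [hb (ε / 2) (by positivity), eventually_ge_atTop 1] with n h2 h3
      apply prob_mono_alpha
      have h4 := (hα n h3).2
      have h5 := le_of_r (d := d) h3 h2.1
      have hq := q_pos (d := d) h3
      have h6 : (1 - ε / 2) * ((1 - ε / 2) * c * (n : ℝ) ^ (-(1 : ℝ) / d)) ≤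
          (1 - ε / 2) * med d k n := mul_le_mul_of_nonneg_left h5 (by linarith)
      have h7 : (1 - ε) * c * (n : ℝ) ^ (-(1 : ℝ) / d) ≤
          (1 - ε / 2) * ((1 - ε / 2) * c * (n : ℝ) ^ (-(1 : ℝ) / d)) := by
        have h8 : 0 < c * (n : ℝ) ^ (-(1 : ℝ) / d) := by positivity
        nlinarith [mul_pos (mul_pos hε hε) h8]
      linarith
    · intro ε hε α hα
      set e : ℝ := min (ε / 3) (1 / 2) with he
      have he0 : 0 < e := lt_min (by positivity) (by norm_num)
      have he1 : e ≤ 1 / 2 := min_le_right _ _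
      have heε : e ≤ ε / 3 := min_le_left _ _
      obtain ⟨-, h1⟩ := sharp_med d hd hk (c := (1 - 1 / 2) * c) (C := (1 + 1 / 2) * c)
        (by positivity) (hb (1 / 2) (by norm_num)) (ε := e) he0 (by linarith)
      refine tendsto_of_tendsto_of_tendsto_of_le_of_le' h1 tendsto_const_nhds ?_
        (Eventually.of_forall fun n => prob_le_one d n _ k)
      filter_upwards [hb e he0, eventually_ge_atTop 1] with n h2 h3
      apply prob_mono_alpha
      have h4 := hα n h3
      have h5 := ge_of_r (d := d) h3 h2.2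
      have hq := q_pos (d := d) h3
      have h8 : 0 < c * (n : ℝ) ^ (-(1 : ℝ) / d) := by positivity
      have h6 : (1 + e) * med d k n ≤ (1 + e) * ((1 + e) * c * (n : ℝ) ^ (-(1 : ℝ) / d)) :=
        mul_le_mul_of_nonneg_left h5 (by linarith)
      have h7 : (1 + e) * ((1 + e) * c * (n : ℝ) ^ (-(1 : ℝ) / d)) ≤
          (1 + ε) * c * (n : ℝ) ^ (-(1 : ℝ) / d) := by
        have h9 : (1 + e) * (1 + e) ≤ 1 + ε := by nlinarith
        have h10 := mul_le_mul_of_nonneg_right h9 h8.le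
        nlinarith
      linarith

end Pool.Agent.Helper28.AN
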