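import Mathlib

/-!
# The random Borsuk graph: the definitions used in the statements
-/

open MeasureTheory Set Filter Topology
open scoped ENNReal

namespace Pool.Agent.Helper28.AN.Raw

section

variable (E : Type) [NormedAddCommGroup E] [InnerProductSpace ℝ E] [FiniteDimensional ℝ E]
  [MeasurableSpace E] [BorelSpace E]

/-- The uniform probability measure on the unit sphere of `E` (normalised surface measure). -/
noncomputable def sig : Measure (Metric.sphere (0 : E) 1) :=
  ((volume : Measure E).toSphere univ)⁻¹ • (volume : Measure E).toSphere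

variable {E}

/-- The random Borsuk graph on the points `X 0, ..., X (n-1)`: two different indices are adjacent
when the angle between the points is larger than `π - α`. -/
def borsuk {n : ℕ} (X : Fin n → Metric.sphere (0 : E) 1) (α : ℝ) : SimpleGraph (Fin n) where
  Adj i j := i ≠ j ∧ Real.pi - α < InnerProductGeometry.angle (X i : E) (X j)
  symm := ⟨fun i j h => ⟨h.1.symm, by rw [InnerProductGeometry.angle_comm]; exact h.2⟩⟩
  loopless := ⟨fun i h => h.1 rfl⟩

variable (E)

/-- The probability that the chromatic number of the random Borsuk graph of `n` independent uniform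
points on the unit sphere of `E` is larger than `k`. -/
noncomputable def probE (n : ℕ) (α : ℝ) (k : ℕ) : ℝ≥0∞ :=
  (Measure.pi fun _ : Fin n => sig E) {X | (k : ℕ∞) < (borsuk X α).chromaticNumber}

end

/-- The probability that the chromatic number of `G_d(n, α)` is larger than `k`
(`n` independent uniform points on `S^d`). -/
noncomputable def prob (d n : ℕ) (α : ℝ) (k : ℕ) : ℝ≥0∞ :=
  probE (EuclideanSpace ℝ (Fin (d + 1))) n α k

/-- `P(χ(G_d(n, α n)) > k) → 0` for every `ε > 0` and every positive sequence `α` with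
`α n < (1 - ε) c n^{-1/d}` for all `n ≥ 1`. -/
def LowerAt (d k : ℕ) (c : ℝ) : Prop :=
  ∀ ε : ℝ, 0 < ε → ∀ α : ℕ → ℝ,
    (∀ n : ℕ, 1 ≤ n → 0 < α n ∧ α n < (1 - ε) * c * (n : ℝ) ^ (-(1 : ℝ) / d)) →
    Tendsto (fun n => prob d n (α n) k) atTop (𝓝 0)

/-- `P(χ(G_d(n, α n)) > k) → 1` for every `ε > 0` and every sequence `α` with
`α n > (1 + ε) c n^{-1/d}` for all `n ≥ 1`. -/
def UpperAt (d k : ℕ) (c : ℝ) : Prop :=
  ∀ ε : ℝ, 0 < ε → ∀ α : ℕ → ℝ,
    (∀ n : ℕ, 1 ≤ n → (1 + ε) * c * (n : ℝ) ^ (-(1 : ℝ) / d) < α n) →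
    Tendsto (fun n => prob d n (α n) k) atTop (𝓝 1)

/-- The median: the infimum of the `α > 0` with `P(χ(G_d(n, α)) > k) ≥ 1/2`. -/
noncomputable def med (d k n : ℕ) : ℝ := sInf {α : ℝ | 0 < α ∧ 1 / 2 ≤ prob d n α k}

end Pool.Agent.Helper28.AN.Raw
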