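import Mathlib

/-!
# The constant `rho d`
-/

open MeasureTheory

namespace Pool.Agent.Helper28.AN.Raw

/-- The volume of the unit ball of `E`. -/
noncomputable def vbE (E : Type) [NormedAddCommGroup E] [MeasureSpace E] : ℝ :=
  (volume (Metric.ball (0 : E) 1)).toReal

/-- The volume of the unit ball of `ℝ^d`. -/
noncomputable def vb (d : ℕ) : ℝ := vbE (EuclideanSpace ℝ (Fin d))

/-- The area of `S^d`. -/
noncomputable def area (d : ℕ) : ℝ := (d + 1) * vb (d + 1)

/-- `α = s * rho d * n^(-1/d)` has mean degree tending to `s^d`. -/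
noncomputable def rho (d : ℕ) : ℝ := (area d / vb d) ^ ((1 : ℝ) / d)

end Pool.Agent.Helper28.AN.Raw
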