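import Mathlib
import Pool.Agent.Helper28.AN.Fin3
import Pool.Agent.Helper97.BG.StrictMain

/-!
MP_8410f8_pr, Q1: the property `χ > k` of the random Borsuk graph has a sharp threshold along all
`n`, the threshold is a slowly varying multiple of `n^{-1/d}`, and Q1 is equivalent to the
convergence of the medians.
-/

open Filter Topology
open scoped ENNReal

namespace Pool.Agent.Helper28.AN

open Pool.Agent.Helper97.BG

/-- Sharp thresholds along all `n`, and Q1 as a statement on the convergence of the medians. -/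
theorem sharpMain (d : ℕ) (hd : 2 ≤ d) :
    (∀ (k : ℕ) (c C ε : ℝ), 2 ≤ k → 0 < c → c ≤ C → 0 < ε → ∃ η : ℝ, 0 < η ∧ ∀ δ : ℝ, 0 < δ →
      ∃ n₀ : ℕ, ∀ (n m : ℕ) (α : ℝ), n₀ ≤ n → (m : ℝ) ≤ (1 + η) * n →
        c * (n : ℝ) ^ (-(1 : ℝ) / d) ≤ α → α ≤ C * (n : ℝ) ^ (-(1 : ℝ) / d) →
        ENNReal.ofReal δ ≤ prob d m α k → ENNReal.ofReal (1 - δ) ≤ prob d n ((1 + ε) * α) k) ∧
    (∀ (k : ℕ) (c C : ℝ), 2 ≤ k → 0 < c →
      (∀ᶠ n : ℕ in atTop, c ≤ (n : ℝ) ^ ((1 : ℝ) / d) * med d k n ∧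
        (n : ℝ) ^ ((1 : ℝ) / d) * med d k n ≤ C) →
      (∀ ε : ℝ, 0 < ε → ε < 1 →
        Tendsto (fun n => prob d n ((1 - ε) * med d k n) k) atTop (𝓝 0) ∧
        Tendsto (fun n => prob d n ((1 + ε) * med d k n) k) atTop (𝓝 1)) ∧
      ∀ m : ℕ → ℕ, Tendsto (fun n => (m n : ℝ) / n) atTop (𝓝 1) →
        Tendsto (fun n => med d k (m n) / med d k n) atTop (𝓝 1)) ∧
    (∀ (k : ℕ) (c : ℝ), 2 ≤ k → 0 < c → ((LowerAt d k c ∧ UpperAt d k c) ↔
      Tendsto (fun n : ℕ => (n : ℝ) ^ ((1 : ℝ) / d) * med d k n) atTop (𝓝 c))) ∧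
    (∀ c₂ : ℝ, 0 < c₂ → LowerAt d 2 c₂ → UpperAt d 2 c₂ →
      ((∃ c : ℕ → ℝ, c 2 = c₂ ∧ (∀ k l, 2 ≤ k → k < l → l ≤ d → c k < c l) ∧
          ∀ k, 3 ≤ k → k ≤ d → LowerAt d k (c k) ∧ UpperAt d k (c k)) ↔
        ∀ k, 3 ≤ k → k ≤ d → ∃ L : ℝ,
          Tendsto (fun n : ℕ => (n : ℝ) ^ ((1 : ℝ) / d) * med d k n) atTop (𝓝 L))) := by
  have hd1 : 1 ≤ d := by omega
  refine ⟨fun k c C ε hk hc hcC hε => part1 d hd1 hk hc hcC hε,
    fun k c C hk hc hb => ⟨fun ε hε hε1 => sharp_med d hd1 hk hc hb hε hε1,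
      fun m hm => slow_med d hd1 hk hc hb m hm⟩,
    fun k c hk hc => conv_iff d hd1 hk hc, ?_⟩
  intro c₂ hc₂ hL hU
  constructor
  · rintro ⟨c, h2, hlt, hth⟩ k hk hkd
    have hck : 0 < c k := by
      have h1 := hlt 2 k le_rfl (by omega) hkd
      rw [h2] at h1
      linarith
    exact ⟨c k, (conv_iff d hd1 (by omega) hck).1 (hth k hk hkd)⟩
  · intro h
    have hmed2 := (conv_iff d hd1 le_rfl hc₂).1 ⟨hL, hU⟩
    choose! L hLim using h
    have hpos : ∀ k, 3 ≤ k → k ≤ d → 0 < L k := by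
      intro k hk hkd
      have h1 : c₂ ≤ L k := by
        refine le_of_tendsto_of_tendsto hmed2 (hLim k hk hkd) ?_
        filter_upwards [eventually_gt_atTop k, eventually_ge_atTop 1] with n hn hn1
        exact mul_le_mul_of_nonneg_left (med_mono_k (by omega) hn) (r_pos (d := d) hn1).le
      linarith
    refine ⟨fun k => if k = 2 then c₂ else L k, by simp, ?_, ?_⟩
    · refine (strictMain d hd).2.2.2 (fun k => if k = 2 then c₂ else L k) ?_
      intro k hk hkd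
      by_cases h2 : k = 2
      · subst h2
        simp only [if_true]
        exact ⟨hc₂, hL, hU⟩
      · simp only [h2, if_false]
        have hp := hpos k (by omega) hkd
        exact ⟨hp, (conv_iff d hd1 hk hp).2 (hLim k (by omega) hkd)⟩
    · intro k hk hkd
      have h2 : k ≠ 2 := by omega
      simp only [h2, if_false]
      exact (conv_iff d hd1 (by omega) (hpos k hk hkd)).2 (hLim k hk hkd)

end Pool.Agent.Helper28.AN
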